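import Pool.Agent.helper86.OF.SpecX

open scoped BigOperators

namespace Pool.Agent.OF

noncomputable section

open Classical

/-- The graph with the new vertices. -/
def BGN_G {V : Type} (G : SimpleGraph V) (X : Finset V) (a s : V → ℕ) (m : ℕ) :
    SimpleGraph (V ⊕ Fin m) where
  Adj u w := match u, w with
    | Sum.inl v, Sum.inl w => G.Adj v w
    | Sum.inl v, Sum.inr j => v ∈ X ∧ ∃ t < a v, (s v + t) % m = j
    | Sum.inr j, Sum.inl v => v ∈ X ∧ ∃ t < a v, (s v + t) % m = j
    | Sum.inr _, Sum.inr _ => False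
  symm := ⟨by
    intro u w h
    match u, w, h with
    | Sum.inl v, Sum.inl w, h => exact SimpleGraph.Adj.symm h
    | Sum.inl v, Sum.inr j, h => exact h
    | Sum.inr j, Sum.inl v, h => exact h
    | Sum.inr _, Sum.inr _, h => exact h⟩
  loopless := ⟨by
    intro u h
    match u, h with
    | Sum.inl v, h => exact G.loopless.irrefl v h
    | Sum.inr _, h => exact h⟩

theorem BGN_ll {V : Type} (G : SimpleGraph V) (X : Finset V) (a s : V → ℕ) (m : ℕ) (v w : V) :
    (BGN_G G X a s m).Adj (Sum.inl v) (Sum.inl w) ↔ G.Adj v w := Iff.rfl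

theorem BGN_lr {V : Type} (G : SimpleGraph V) (X : Finset V) (a s : V → ℕ) (m : ℕ) (v : V)
    (j : Fin m) : (BGN_G G X a s m).Adj (Sum.inl v) (Sum.inr j) ↔
      (v ∈ X ∧ ∃ t < a v, (s v + t) % m = j) := Iff.rfl

theorem BGN_rl {V : Type} (G : SimpleGraph V) (X : Finset V) (a s : V → ℕ) (m : ℕ) (v : V)
    (j : Fin m) : (BGN_G G X a s m).Adj (Sum.inr j) (Sum.inl v) ↔
      (v ∈ X ∧ ∃ t < a v, (s v + t) % m = j) := Iff.rfl

theorem BGN_rr {V : Type} (G : SimpleGraph V) (X : Finset V) (a s : V → ℕ) (m : ℕ)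
    (i j : Fin m) : (BGN_G G X a s m).Adj (Sum.inr i) (Sum.inr j) ↔ False := Iff.rfl

theorem BGN_fc {α : Type} [Fintype α] (p q : α → Prop) [DecidablePred p] [DecidablePred q] (h : ∀ x, p x ↔ q x) :
    (Finset.univ.filter p).card = (Finset.univ.filter q).card := by
  congr 1
  ext x
  simp only [Finset.mem_filter, Finset.mem_univ, true_and]
  exact h x

theorem BGN_card {V : Type} [Fintype V] {m : ℕ} (p : V ⊕ Fin m → Prop) [DecidablePred p] :
    (Finset.univ.filter p).card = (Finset.univ.filter fun v : V => p (Sum.inl v)).card +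
      (Finset.univ.filter fun j : Fin m => p (Sum.inr j)).card := by
  rw [Finset.card_filter, Finset.card_filter, Finset.card_filter, Fintype.sum_sum_type]

theorem BGN_mc {α : Type} (f : Fintype α) (d : DecidableEq α) (X : Finset α) (w : α) :
    w ∈ Xᶜ ↔ w ∉ X := Finset.mem_compl

theorem BGN_dgl {V : Type} [Fintype V] (X : Finset V) (a s : V → ℕ) (m : ℕ)
    (v : V) (ha : a v ≤ m) :
    (Finset.univ.filter fun j : Fin m => v ∈ X ∧ ∃ t < a v, (s v + t) % m = j).card =
      if v ∈ X then a v else 0 := by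
  by_cases hv : v ∈ X
  · rw [if_pos hv]
    have e : (Finset.univ.filter fun j : Fin m => v ∈ X ∧ ∃ t < a v, (s v + t) % m = j).map
        Fin.valEmbedding = (Finset.range (a v)).image fun t => (s v + t) % m := by
      ext j
      simp only [Finset.mem_map, Finset.mem_filter, Finset.mem_univ, true_and,
        Fin.valEmbedding_apply, Finset.mem_image, Finset.mem_range]
      constructor
      · rintro ⟨i, ⟨-, t, ht, h⟩, rfl⟩
        exact ⟨t, ht, h⟩
      · rintro ⟨t, ht, h⟩
        have hm : 0 < m := by omega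
        refine ⟨⟨j, ?_⟩, ⟨hv, t, ht, h⟩, rfl⟩
        rw [← h]; exact Nat.mod_lt _ hm
    rw [← Finset.card_map Fin.valEmbedding, e, Finset.card_image_of_injOn, Finset.card_range]
    intro t ht t' ht' h
    simp only [Finset.coe_range, Set.mem_Iio] at ht ht'
    have h1 : (s v + t) ≡ (s v + t') [MOD m] := h
    have h2 : t ≡ t' [MOD m] := Nat.ModEq.add_left_cancel' _ h1
    exact Nat.ModEq.eq_of_lt_of_lt h2 (by omega) (by omega)
  · rw [if_neg hv, Finset.card_eq_zero, Finset.filter_eq_empty_iff]
    rintro j - ⟨h, -⟩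
    exact hv h

theorem BGN_s (V : Type) [Fintype V] (X : Finset V) (a : V → ℕ) :
    ∃ s : V → ℕ, (∀ v ∈ X, s v + a v ≤ ∑ x ∈ X, a x) ∧
      ∀ v ∈ X, ∀ w ∈ X, ∀ t < a v, ∀ t' < a w, s v + t = s w + t' → v = w := by
  obtain ⟨e⟩ : Nonempty (V ≃ Fin (Fintype.card V)) := ⟨Fintype.equivFin V⟩
  have key : ∀ v ∈ X, ∀ w ∈ X, e v < e w → ∑ x ∈ X.filter (fun x => e x < e v), a x + a v ≤
      ∑ x ∈ X.filter (fun x => e x < e w), a x := by
    intro v hv w hw h
    have h1 : insert v (X.filter (fun x => e x < e v)) ⊆ X.filter (fun x => e x < e w) := by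
      intro x hx
      rw [Finset.mem_insert, Finset.mem_filter] at hx
      rw [Finset.mem_filter]
      rcases hx with rfl | hx
      · exact ⟨hv, h⟩
      · exact ⟨hx.1, hx.2.trans h⟩
    have h2 := Finset.sum_le_sum_of_subset (f := a) h1
    rw [Finset.sum_insert (by simp)] at h2
    omega
  refine ⟨fun v => ∑ x ∈ X.filter (fun x => e x < e v), a x, ?_, ?_⟩
  · intro v hv
    have h1 : insert v (X.filter (fun x => e x < e v)) ⊆ X := by
      intro x hx
      rw [Finset.mem_insert, Finset.mem_filter] at hx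
      rcases hx with rfl | hx
      · exact hv
      · exact hx.1
    have h2 := Finset.sum_le_sum_of_subset (f := a) h1
    rw [Finset.sum_insert (by simp)] at h2
    show ∑ x ∈ X.filter (fun x => e x < e v), a x + a v ≤ _
    omega
  · intro v hv w hw t ht t' ht' h
    change ∑ x ∈ X.filter (fun x => e x < e v), a x + t =
      ∑ x ∈ X.filter (fun x => e x < e w), a x + t' at h
    rcases lt_trichotomy (e v) (e w) with h' | h' | h'
    · have := key v hv w hw h'
      omega
    · exact e.injective h'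
    · have := key w hw v hv h'
      omega

theorem BGN_dgr {V : Type} [Fintype V] (X : Finset V) (a s : V → ℕ) (m : ℕ)
    (h1 : ∀ v ∈ X, s v + a v ≤ ∑ x ∈ X, a x)
    (h2 : ∀ v ∈ X, ∀ w ∈ X, ∀ t < a v, ∀ t' < a w, s v + t = s w + t' → v = w) (j : Fin m) :
    (Finset.univ.filter fun v : V => v ∈ X ∧ ∃ t < a v, (s v + t) % m = j).card ≤
      (∑ x ∈ X, a x) / m + 1 := by
  have hch : ∀ v : V, ∃ t, (v ∈ X ∧ ∃ t < a v, (s v + t) % m = j) → (t < a v ∧ (s v + t) % m = j) := by
    intro v
    by_cases h : (v ∈ X ∧ ∃ t < a v, (s v + t) % m = j)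
    · obtain ⟨t, ht⟩ := h.2
      exact ⟨t, fun _ => ht⟩
    · exact ⟨0, fun h' => absurd h' h⟩
  choose t ht using hch
  rw [← Finset.card_range ((∑ x ∈ X, a x) / m + 1)]
  apply Finset.card_le_card_of_injOn (fun v => (s v + t v) / m)
  · intro v hv
    rw [Finset.mem_coe, Finset.mem_filter] at hv
    rw [Finset.mem_coe, Finset.mem_range]
    show (s v + t v) / m < (∑ x ∈ X, a x) / m + 1
    have := ht v hv.2
    have h3 := h1 v hv.2.1
    have h4 : (s v + t v) / m ≤ (∑ x ∈ X, a x) / m := Nat.div_le_div_right (by omega)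
    omega
  · intro v hv w hw h
    rw [Finset.mem_coe, Finset.mem_filter] at hv hw
    change (s v + t v) / m = (s w + t w) / m at h
    have hv' := ht v hv.2
    have hw' := ht w hw.2
    have e1 := Nat.div_add_mod (s v + t v) m
    have e2 := Nat.div_add_mod (s w + t w) m
    rw [hv'.2, h] at e1
    rw [hw'.2] at e2
    exact h2 v hv.2.1 w hw.2.1 _ hv'.1 _ hw'.1 (e1.symm.trans e2)

theorem BGN (hBTM : BTM_stmt) : BGN_stmt := by
  intro ε ρ hε hρ hρε
  obtain ⟨C0, N00, hC0, hT⟩ := hBTM (ε / 2) (ρ / 2) (by positivity) (by positivity)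
  refine ⟨2 * C0, max N00 (⌈10 / ε⌉₊ + 20), by positivity, ?_⟩
  intro V _ G D X hN hdeg hD hX hU
  set N := Fintype.card V with hNdef
  have hN1 : N00 ≤ N := le_trans (le_max_left _ _) hN
  have hN2 : ⌈10 / ε⌉₊ + 20 ≤ N := le_trans (le_max_right _ _) hN
  have hN3 : 10 / ε + 20 ≤ (N : ℝ) := by
    have h1 := Nat.le_ceil (10 / ε)
    have h2 : ((⌈10 / ε⌉₊ + 20 : ℕ) : ℝ) ≤ N := by exact_mod_cast hN2
    push_cast at h2
    linarith
  have hεN : 10 + 20 * ε ≤ ε * N := by
    have := mul_le_mul_of_nonneg_left hN3 hε.le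
    have e : ε * (10 / ε + 20) = 10 + 20 * ε := by field_simp
    linarith
  have hN20 : (20 : ℝ) ≤ N := by
    have : 0 < 10 / ε := by positivity
    linarith
  -- X is nonempty
  have hXne : X.Nonempty := by
    by_contra h
    rw [Finset.not_nonempty_iff_eq_empty] at h
    subst h
    simp only [ep, Finset.sum_empty, add_zero, Nat.cast_zero] at hU
    nlinarith
  have hdN : ∀ v, (dg G v : ℝ) ≤ N := by
    intro v
    have : dg G v ≤ N := by
      rw [hNdef]
      exact Finset.card_le_univ _
    exact_mod_cast this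
  have hε2 : ε ≤ 10 / 19 := by
    obtain ⟨x, hx⟩ := hXne
    have h1 := (hX x).1 hx
    have h2 := hdN x
    have h3 : (1 / 2 + ε) * N < N + ρ * N := by linarith
    have h4 : (1 / 2 + ε) < 1 + ρ := by
      have : 0 < (N : ℝ) := by linarith
      by_contra h
      push Not at h
      nlinarith
    linarith
  have hρ2 : ρ ≤ 1 / 38 := by linarith
  set m := ⌈4 * ρ * N⌉₊ with hm
  have hρN : 0 < ρ * N := by nlinarith
  have hm1 : (4 * ρ * N : ℝ) ≤ m := Nat.le_ceil _
  have hm2 : (m : ℝ) < 4 * ρ * N + 1 := Nat.ceil_lt_add_one (by nlinarith)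
  have hm0 : 0 < m := by
    have : (0 : ℝ) < m := by nlinarith
    exact_mod_cast this
  set a : V → ℕ := fun v => D - dg G v with ha
  have haX : ∀ v ∈ X, (a v : ℝ) < ρ * N := by
    intro v hv
    have h1 := (hX v).1 hv
    have h2 := hdeg v
    simp only [ha]
    rw [Nat.cast_sub h2]
    linarith
  have ham : ∀ v ∈ X, a v ≤ m := by
    intro v hv
    have := haX v hv
    have h3 : (a v : ℝ) ≤ m := by nlinarith
    exact_mod_cast h3
  obtain ⟨s, hs1, hs2⟩ := BGN_s V X a
  set G' := BGN_G G X a s m with hG'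
  set X' : Finset (V ⊕ Fin m) := X.map Function.Embedding.inl with hX'
  have hcard : Fintype.card (V ⊕ Fin m) = N + m := by
    rw [Fintype.card_sum, Fintype.card_fin]
  have hmN : (m : ℝ) ≤ N := by nlinarith
  have hdl : ∀ v, dg G' (Sum.inl v) = dg G v + if v ∈ X then a v else 0 := by
    intro v
    have e1 : dg G' (Sum.inl v) = (Finset.univ.filter fun w : V => G.Adj v w).card +
        (Finset.univ.filter fun j : Fin m => v ∈ X ∧ ∃ t < a v, (s v + t) % m = j).card := by
      unfold dg dgs
      rw [BGN_card, BGN_fc _ (fun w : V => G.Adj v w) (fun w => BGN_ll G X a s m v w),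
        BGN_fc _ _ (fun j => BGN_lr G X a s m v j)]
    rw [e1]
    by_cases hv : v ∈ X
    · rw [BGN_dgl X a s m v (ham v hv)]
      rfl
    · rw [if_neg hv]
      have h0 : (Finset.univ.filter fun j : Fin m =>
          v ∈ X ∧ ∃ t < a v, (s v + t) % m = j).card = 0 := by
        rw [Finset.card_eq_zero, Finset.filter_eq_empty_iff]
        rintro j - ⟨h, -⟩
        exact hv h
      rw [h0]
      rfl
  have hdr : ∀ j : Fin m, dg G' (Sum.inr j) ≤ (∑ x ∈ X, a x) / m + 1 := by
    intro j
    have e1 : dg G' (Sum.inr j) = (Finset.univ.filter fun v : V =>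
        v ∈ X ∧ ∃ t < a v, (s v + t) % m = j).card +
        (Finset.univ.filter fun i : Fin m => False).card := by
      unfold dg dgs
      rw [BGN_card, BGN_fc _ _ (fun v => BGN_rl G X a s m v j),
        BGN_fc _ _ (fun i => BGN_rr G X a s m j i)]
    rw [e1, Finset.filter_false, Finset.card_empty, add_zero]
    exact BGN_dgr X a s m hs1 hs2 j
  have hS : ((∑ x ∈ X, a x : ℕ) : ℝ) ≤ N * (ρ * N) := by
    push_cast
    calc ∑ x ∈ X, (a x : ℝ) ≤ ∑ x ∈ X, ρ * N := Finset.sum_le_sum fun x hx => (haX x hx).le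
      _ = X.card * (ρ * N) := by rw [Finset.sum_const, nsmul_eq_mul]
      _ ≤ N * (ρ * N) := by
        apply mul_le_mul_of_nonneg_right _ hρN.le
        have : X.card ≤ N := Finset.card_le_univ _
        exact_mod_cast this
  have hSm : (((∑ x ∈ X, a x) / m + 1 : ℕ) : ℝ) ≤ N / 4 + 1 := by
    push_cast
    have h1 : (((∑ x ∈ X, a x) / m : ℕ) : ℝ) ≤ ((∑ x ∈ X, a x : ℕ) : ℝ) / m := Nat.cast_div_le
    have h2 : ((∑ x ∈ X, a x : ℕ) : ℝ) / m ≤ N / 4 := by
      rw [div_le_iff₀ (by exact_mod_cast hm0)]
      calc ((∑ x ∈ X, a x : ℕ) : ℝ) ≤ N * (ρ * N) := hS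
        _ = N / 4 * (4 * ρ * N) := by ring
        _ ≤ N / 4 * m := by
          apply mul_le_mul_of_nonneg_left hm1
          linarith
    linarith
  have hEC : EC G' D := by
    apply hT (V ⊕ Fin m) G' D X'
    · rw [hcard]; omega
    · rw [hcard]
      push_cast
      have h1 : (m : ℝ) ≤ ε / 5 * N + 1 := by nlinarith
      have h2 : (1 / 2 + ε / 2) * ((N : ℝ) + m) ≤ (1 / 2 + ε / 2) * (N + (ε / 5 * N + 1)) := by
        apply mul_le_mul_of_nonneg_left _ (by positivity)
        linarith
      have h3 : (1 / 2 + ε / 2) * (N + (ε / 5 * N + 1)) ≤ (1 / 2 + ε) * N := by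
        have h4 : ε * (ε * N) ≤ 10 / 19 * (ε * N) :=
          mul_le_mul_of_nonneg_right hε2 (by nlinarith)
        nlinarith
      linarith
    · intro x hx
      rw [hX', Finset.mem_map] at hx
      obtain ⟨v, hv, rfl⟩ := hx
      change dg G' (Sum.inl v) = D
      rw [hdl, if_pos hv]
      have := hdeg v
      simp only [ha]
      omega
    · intro y hy
      rw [hcard]
      push_cast
      match y, hy with
      | Sum.inl v, hy =>
        have hv : v ∉ X := by
          intro h
          apply hy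
          rw [hX', Finset.mem_map]
          exact ⟨v, h, rfl⟩
        rw [hdl, if_neg hv, add_zero]
        have h1 : ¬ ((D : ℝ) < dg G v + ρ * N) := fun h => hv ((hX v).2 h)
        push Not at h1
        have h2 : ρ / 2 * ((N : ℝ) + m) ≤ ρ * N := by nlinarith
        linarith
      | Sum.inr j, hy =>
        have h1 : (dg G' (Sum.inr j) : ℝ) ≤ N / 4 + 1 :=
          le_trans (by exact_mod_cast hdr j) hSm
        have h2 : ρ / 2 * ((N : ℝ) + m) ≤ ρ * N := by nlinarith
        have h3 : ρ * (N : ℝ) ≤ 1 / 38 * N := by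
          apply mul_le_mul_of_nonneg_right hρ2
          linarith
        nlinarith
    · rw [hcard]
      push_cast
      have hep : ∀ S : Finset (V ⊕ Fin m), (∀ w, w ∈ S ↔ w ∉ X') →
          ep G' X' S = ∑ x ∈ X, (D - dg G x) + ep G X Xᶜ := by
        intro S hSc
        unfold ep
        rw [hX', Finset.sum_map, ← Finset.sum_add_distrib]
        apply Finset.sum_congr rfl
        intro x hx
        have h1 : dgs G' S (Function.Embedding.inl x) =
            (Finset.univ.filter fun w : V ⊕ Fin m =>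
              w ∉ X.map Function.Embedding.inl ∧ G'.Adj (Sum.inl x) w).card := by
          unfold dgs
          congr 1
          ext w
          simp only [Finset.mem_filter, hSc, Finset.mem_univ, true_and]
          rfl
        have h2 : dgs G Xᶜ x = (Finset.univ.filter fun w : V => w ∉ X ∧ G.Adj x w).card := by
          unfold dgs
          congr 1
          ext w
          simp only [Finset.mem_filter, Finset.mem_compl, Finset.mem_univ, true_and]
        rw [h1, h2, BGN_card, add_comm]
        congr 1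
        · have h3 := BGN_dgl X a s m x (ham x hx)
          rw [if_pos hx] at h3
          have h4 : a x = D - dg G x := rfl
          rw [← h4, ← h3]
          congr 1
          ext j
          simp only [Finset.mem_filter, Finset.mem_univ, true_and]
          constructor
          · rintro ⟨-, h⟩
            exact h
          · intro h
            refine ⟨?_, h⟩
            intro h'
            rw [Finset.mem_map] at h'
            obtain ⟨v, -, h''⟩ := h'
            cases h''
        · congr 1
          ext w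
          simp only [Finset.mem_filter, Finset.mem_univ, true_and]
          constructor
          · rintro ⟨h, h'⟩
            refine ⟨fun hw => h ?_, h'⟩
            rw [Finset.mem_map]
            exact ⟨w, hw, rfl⟩
          · rintro ⟨h, h'⟩
            refine ⟨fun hw => h ?_, h'⟩
            rw [Finset.mem_map] at hw
            obtain ⟨v, hv, h''⟩ := hw
            rw [← Sum.inl.inj h'']
            exact hv
      rw [hep]
      swap
      · intro w
        exact BGN_mc _ _ _ w
      calc C0 * ((N : ℝ) + m) ≤ 2 * C0 * N := by nlinarith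
        _ ≤ _ := hU
  obtain ⟨c, hc1, hc2⟩ := hEC
  refine ⟨fun e => c (e.map Sum.inl), ?_, ?_⟩
  · intro v w h
    exact hc1 (Sum.inl v) (Sum.inl w) h
  · intro v w w' h h' hcc
    exact Sum.inl.inj (hc2 (Sum.inl v) (Sum.inl w) (Sum.inl w') h h' hcc)

end

end Pool.Agent.OF

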