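import Pool.Agent.helper86.OF.SpecL

/-! # of: COV, covering by matchings -/

open scoped BigOperators

namespace Pool.Agent.OF

noncomputable section

open Classical

/-- the colour of an edge -/
def COV_c {V : Type} (D : ℕ) (M : ℕ → V → V) (e : Sym2 V) : ℕ :=
  if h : ∃ i, i < D ∧ ∃ v w, e = s(v, w) ∧ M i v = w then h.choose else 0

theorem COV : COV_stmt := by
  intro V _ G D M hM hc
  have key : ∀ v w, G.Adj v w → COV_c D M s(v, w) < D ∧ M (COV_c D M s(v, w)) v = w := by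
    intro v w hvw
    obtain ⟨i, hi, hiw⟩ := hc v w hvw
    obtain ⟨k, h0, h1, v', w', h2, h3⟩ : ∃ k, COV_c D M s(v, w) = k ∧ k < D ∧
        ∃ v' w', s(v, w) = s(v', w') ∧ M k v' = w' := by
      have hex : ∃ i, i < D ∧ ∃ v' w', s(v, w) = s(v', w') ∧ M i v' = w' := ⟨i, hi, v, w, rfl, hiw⟩
      refine ⟨hex.choose, ?_, hex.choose_spec⟩
      unfold COV_c
      rw [dif_pos hex]
    rw [h0]
    refine ⟨h1, ?_⟩
    rw [Sym2.eq_iff] at h2
    rcases h2 with ⟨e1, e2⟩ | ⟨e1, e2⟩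
    · rw [e1, e2]
      exact h3
    · have h4 := hM _ h1 v'
      rw [h3, ← e1, ← e2] at h4
      exact h4
  refine ⟨COV_c D M, fun v w h => (key v w h).1, fun v w w' h h' he => ?_⟩
  rw [← (key v w h).2, he, (key v w' h').2]

end

end Pool.Agent.OF
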